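import Pool.Agent.N931.PN.Stm
import Pool.Agent.N144.EW.DetA
import Pool.Agent.N116.EW.Match

/-!
Project PN (helper931), part HX (helper866): an examined edge gives arms.
-/

set_option autoImplicit false

namespace Pool.Agent.N866.PN.HX

open H974 H12S H389NS H984N H984P H342P H443B Finset
open Pool.Agent.N116.EW
open Pool.Agent.N144.EW (firstOut lastBox lastBoxD blk_iff dface_near)
open Pool.Agent.N931.PN

/-- The arms near the boundary. -/
theorem nx_of' {D : Dm} (hD : D.Ok) {B : Finset Edg} {z x y : Vtx} {d R : ℕ} (hx : sd x z ≤ d)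
    (hy : sd y z ≤ d + 1) (hxc : x ∈ D.clu B) (hyc : y ∈ D.dclu B) : NX D z d R B := by
  constructor
  · intro hfar
    have h0 : ((0, 0) : Vtx) ∈ wv D := by
      refine ⟨(-1, 0, true), ?_, Or.inr ?_⟩
      · right; right
        exact ⟨rfl, rfl, by have := hD.l_neg; simp only; omega, by norm_num⟩
      · simp
    have hxc' : Reach (D.cfg B) x (0, 0) := Reach.symm hxc
    obtain ⟨w, hw1, hw2⟩ := firstOut (hfar _ h0) hxc'
    have hw3 : Reach (↑B : Set Edg) x w := by
      refine hw2.mono ?_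
      rintro g ⟨hg1 | hg1, hg2⟩
      · exact hg1
      · exfalso
        have h1 := hfar (src g) ⟨g, hg1, Or.inl rfl⟩
        have h2 := hfar (tgt g) ⟨g, hg1, Or.inr rfl⟩
        rcases hg2 with h | h
        · exact absurd h (not_lt.2 h1)
        · exact absurd h (not_lt.2 h2)
    obtain ⟨u, hu1, hu2⟩ := lastBox (c := z) (d := d) hx hw3
    exact ⟨u, w, hu1, hw1, hu2⟩
  · intro hfar
    obtain ⟨g, hg, hgy⟩ := hyc
    obtain ⟨u, hu1, hu2⟩ := lastBoxD (c := z) (d := d) hy hgy.symm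
    refine ⟨u, g, hu1, hfar g hg, hu2.mono ?_⟩
    rintro e ⟨⟨h1, h2⟩, h3⟩
    exact ⟨h1, h2, h3⟩

theorem main : Pool.Agent.N931.PN.S_HX := by
  rintro D hD F hF z d R hd ⟨e, heJ, hez⟩
  unfold JJ at heJ
  rw [Finset.mem_filter, Finset.mem_image] at heJ
  obtain ⟨⟨k, hk, rfl⟩, hee⟩ := heJ
  have hk' := Finset.mem_range.1 hk
  obtain ⟨h1, h2⟩ := walk_clu hD hF (k := k) (by omega)
  have hb := blk_iff.1 hez
  have hn := dface_near hb.1 hb.2
  refine nx_of' hD ?_ ?_ h1 h2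
  · rcases p2_ends (D.walk F k) with ⟨e1, e2⟩ | ⟨e1, e2⟩
    · rw [← e1]; exact hb.1
    · rw [← e2]; exact hb.2
  · rcases p2_dends (D.walk F k) with ⟨e1, e2⟩ | ⟨e1, e2⟩
    · rw [← e1]; exact hn.1
    · rw [← e2]; exact hn.2

end Pool.Agent.N866.PN.HX
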